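import Pool.Agent.H375R4.Dual

set_option autoImplicit false

/-! # Restriction to admissible spheres in dimension three beyond the Stein-Tomas exponent

For `d = 3` and every admissible `j` (that is, `-j` is a nonsquare) the `L^p → L^2` restriction
estimate for the sphere holds, with a constant independent of the field and of `j`, for all
`1 ≤ p ≤ 15/11`. The Stein-Tomas range is `1 ≤ p ≤ 4/3`. -/

open Finset

namespace Pool.Agent.Results.MP_c8b0a1_an.DimThreeBeyondSteinTomas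

theorem result :
    ∃ C : ℝ, ∀ p : ℝ, 1 ≤ p → p ≤ 15 / 11 →
      ∀ (F : Type) [Field F] [Fintype F] [DecidableEq F],
        ringChar F ≠ 2 → ∀ ψ : AddChar F ℂ, ψ ≠ 1 → ∀ j : F, j ≠ 0 →
        quadraticChar F (-j) = -1 →
        ∀ f : (Fin 3 → F) → ℂ,
          Real.sqrt ((1 / ((Finset.univ.filter (fun ξ : Fin 3 → F => ∑ i, ξ i ^ 2 = j)).card : ℝ)) *
            ∑ ξ ∈ Finset.univ.filter (fun ξ : Fin 3 → F => ∑ i, ξ i ^ 2 = j),
              ‖∑ x : Fin 3 → F, f x * ψ (-(∑ i, x i * ξ i))‖ ^ 2)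
          ≤ C * (∑ x : Fin 3 → F, ‖f x‖ ^ p) ^ (1 / p) := by
  refine ⟨2 * (4003 : ℝ) ^ (4 / 15 : ℝ), ?_⟩
  intro p hp1 hp2 F _ _ _ h2 ψ hψ j hj hadm f
  have H := H375R4.adm_dot hψ h2 j hj hadm
  have h1 := H.restr (H375R4.dot F 3) f
  have hS : H375R4.lev (H375R4.dot F 3) j =
      Finset.univ.filter (fun ξ : Fin 3 → F => ∑ i, ξ i ^ 2 = j) := by
    ext ξ
    simp [H375R4.lev, H375R4.dot, H375R4.SForm.Q, sq]
  have hft : ∀ ξ, H375R4.ft (H375R4.dot F 3) ψ f ξ =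
      ∑ x : Fin 3 → F, f x * ψ (-(∑ i, x i * ξ i)) := by
    intro ξ
    unfold H375R4.ft
    refine Finset.sum_congr rfl fun x _ => ?_
    rw [(H375R4.dot F 3).symm ξ x]; rfl
  rw [hS] at h1
  simp_rw [hft] at h1
  refine h1.trans ?_
  have h3 := H375R4.lp_mono f p (15 / 11) hp1 hp2
  rw [show (1 / (15 / 11 : ℝ)) = 11 / 15 by norm_num] at h3
  exact mul_le_mul_of_nonneg_left h3 (by positivity)

end Pool.Agent.Results.MP_c8b0a1_an.DimThreeBeyondSteinTomas
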